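import Pool.Agent.Helper34.FB.Goals

/-!
# Project FB: packet CLAIM
-/

set_option autoImplicit false

namespace Pool.Agent.Helper61.FB

open Pool.Agent.Helper34.FB

universe u v

/-- products over a list of letters which is split in two parts -/
theorem hp_split {W : Type v} [AddCommGroup W] (s : ℕ) (K : Fin s → W →+ W) (y : W) (n : ℕ) :
    ∀ m : ℕ, n + s = m → ∀ (h : Fin n → W →+ W) (H : Fin m → W →+ W),
    (∀ (i : Fin n) (j : Fin m), (j : ℕ) = i → H j = h i) →
    (∀ (a : Fin s) (j : Fin m), (j : ℕ) = n + a → H j = K a) → hp m H y = hp n h (hp s K y) := by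
  induction n with
  | zero =>
    intro m hm h H _ h2
    obtain rfl : s = m := by omega
    have h3 : H = K := funext fun a => h2 a a (by simp)
    rw [h3]
    rfl
  | succ n ih =>
    intro m hm h H h1 h2
    obtain ⟨m', rfl⟩ : ∃ m', m = m' + 1 := ⟨n + s, by omega⟩
    show H 0 (hp m' (fun i => H i.succ) y) = h 0 (hp n (fun i => h i.succ) (hp s K y))
    rw [h1 0 0 rfl, ih m' (by omega) (fun i => h i.succ) (fun i => H i.succ)]
    · intro i j hij
      refine h1 i.succ j.succ ?_
      rw [Fin.val_succ, Fin.val_succ, hij]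
    · intro a j haj
      refine h2 a j.succ ?_
      rw [Fin.val_succ, haj]
      omega

theorem hp_deg {R : Type u} [CommRing R] {W : Type v} [AddCommGroup W] [Module R W] (gr : ℕ → Submodule R W)
    (n : ℕ) : ∀ h : Fin n → W →+ W, (∀ k i, ∀ y ∈ gr i, h k y ∈ gr (i + 1)) →
    ∀ i, ∀ y ∈ gr i, hp n h y ∈ gr (i + n) := by
  induction n with
  | zero =>
    intro h _ i y hy
    exact hy
  | succ n ih =>
    intro h hh i y hy
    exact hh 0 (i + n) _ (ih (fun k => h k.succ) (fun k => hh k.succ) i y hy)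

/-- a block triangular determinant -/
theorem det_blk {R : Type u} [CommRing R] {n e s m : ℕ} (E : Fin n ⊕ Fin s ≃ Fin m)
    (rows : Fin m → Fin e ⊕ Fin s → R) (l' : Fin m → Fin e ⊕ Fin s) (l : Fin n → Fin e)
    (h1 : ∀ b, l' (E (Sum.inl b)) = Sum.inl (l b)) (h2 : ∀ a, l' (E (Sum.inr a)) = Sum.inr a)
    (h3 : ∀ k a, rows (E (Sum.inl k)) (Sum.inr a) = 0)
    (h4 : ∀ a b, rows (E (Sum.inr a)) (Sum.inr b) = if a = b then 1 else 0) :
    (Matrix.of fun k b => rows k (l' b)).det =
      (Matrix.of fun k b => rows (E (Sum.inl k)) (Sum.inl (l b))).det := by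
  rw [← Matrix.det_submatrix_equiv_self E]
  have e1 : (Matrix.of fun k b => rows k (l' b)).submatrix E E =
      Matrix.fromBlocks (Matrix.of fun k b => rows (E (Sum.inl k)) (Sum.inl (l b))) 0
        (Matrix.of fun a b => rows (E (Sum.inr a)) (Sum.inl (l b))) 1 := by
    ext x y
    rcases x with k | a <;> rcases y with b | b
    · simp [h1]
    · simp [h2, h3]
    · simp [h1]
    · simp [h2, h4, Matrix.one_apply]
  rw [e1, Matrix.det_fromBlocks_zero₁₂, Matrix.det_one, mul_one]

theorem gCLAIM : G_CLAIM.{u, v} := by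
  intro hDET hU R _ t1 t2 n s p f1 f2 S g hreg hn hnsp hg c1 c2 hc l
  obtain ⟨n', rfl⟩ : ∃ n', n = n' + 1 := ⟨n - 1, by omega⟩
  have hp' : n' + s = p := by omega
  -- the extended rows
  set c1e : Fin (n' + 1) → Fin (n' + 1 + 1) ⊕ Fin s → R := fun k => Sum.elim (c1 k) (fun _ => 0) with hc1e
  set c2e : Fin (n' + 1) → Fin (n' + 1 + 1) ⊕ Fin s → R := fun k => Sum.elim (c2 k) (fun _ => 0) with hc2e
  have hψ : ∀ k, ∃ ψ : R, ∑ l, c1e k l * (t1 * f1 l + t2 * f2 l) = -(t2 * ψ) ∧
      ∑ l, c2e k l * (t1 * f1 l + t2 * f2 l) = t1 * ψ := by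
    intro k
    obtain ⟨ψ, h1, h2⟩ := hreg (∑ j, c1 k j * (t1 * f1 (Sum.inl j) + t2 * f2 (Sum.inl j)))
      (∑ j, c2 k j * (t1 * f1 (Sum.inl j) + t2 * f2 (Sum.inl j))) (by
        rw [← hc k, Finset.mul_sum, Finset.mul_sum, ← Finset.sum_add_distrib]
        exact Finset.sum_congr rfl fun j _ => by ring)
    refine ⟨ψ, ?_, ?_⟩
    · rw [← h1, Fintype.sum_sum_type]
      simp [hc1e]
    · rw [← h2, Fintype.sum_sum_type]
      simp [hc2e]
  choose ψ hψ1 hψ2 using hψ
  choose Hh H hHh hH hHh2 hH2 hθ hHm hHhp using fun k => S.hop (c1e k) (c2e k) (ψ k) (hψ1 k) (hψ2 k)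
  -- the operators `K`
  set cK : Fin s → Fin (n' + 1 + 1) ⊕ Fin s → R := fun a =>
    Sum.elim (fun j => -g a j) (fun b => if a = b then 1 else 0) with hcK
  have hK : ∀ a, ∑ l, cK a l * (t1 * f1 l + t2 * f2 l) = 0 := by
    intro a
    rw [Fintype.sum_sum_type]
    simp only [hcK, Sum.elim_inl, Sum.elim_inr, ite_mul, one_mul, zero_mul, neg_mul,
      Finset.sum_neg_distrib, Finset.sum_ite_eq, Finset.mem_univ, if_true]
    rw [hg a]
    abel
  choose K hKgr hKT hKD using fun a => S.kop (cK a) (hK a)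
  -- the list of letters
  set e : Fin n' ⊕ Fin s ≃ Fin p := finSumFinEquiv.trans (finCongr hp') with he
  have he1 : ∀ i, ((e (Sum.inl i) : Fin p) : ℕ) = i := fun i => by simp [he]
  have he2 : ∀ a, ((e (Sum.inr a) : Fin p) : ℕ) = n' + a := fun a => by simp [he]
  set E : Fin (n' + 1) ⊕ Fin s ≃ Fin (p + 1) := finSumFinEquiv.trans (finCongr (by omega)) with hE
  have hE0 : E (Sum.inl 0) = 0 := by
    apply Fin.ext
    simp [hE]
  have hE1 : ∀ i, E (Sum.inl i.succ) = (e (Sum.inl i)).succ := by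
    intro i
    apply Fin.ext
    rw [Fin.val_succ, he1]
    simp [hE]
  have hE2 : ∀ a, E (Sum.inr a) = (e (Sum.inr a)).succ := by
    intro a
    apply Fin.ext
    rw [Fin.val_succ, he2]
    simp [hE]
    omega
  set hh : Fin n' → S.W →+ S.W := fun i => H i.succ with hhh
  set LL : Fin p → S.W →+ S.W := fun j => Sum.elim hh K (e.symm j) with hLL
  set cc : Fin p → Fin (n' + 1 + 1) ⊕ Fin s → R := fun j =>
    Sum.elim (fun (i : Fin n') l => t1 * c1e i.succ l + t2 * c2e i.succ l) cK (e.symm j) with hcc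
  have hLLD : ∀ i j y, S.D j (LL i y) + LL i (S.D j y) = cc i j • y := by
    intro i j y
    obtain ⟨x, rfl⟩ := e.surjective i
    simp only [hLL, hcc, Equiv.symm_apply_apply]
    rcases x with i | a
    · exact hH2 i.succ j y
    · exact hKD a j y
  have hsplit : ∀ y, hp p LL y = hp n' hh (hp s K y) := by
    intro y
    refine hp_split s K y n' p hp' hh LL ?_ ?_
    · intro i j hij
      obtain rfl : e (Sum.inl i) = j := Fin.ext (by rw [he1, hij])
      simp only [hLL, Equiv.symm_apply_apply, Sum.elim_inl]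
    · intro a j haj
      obtain rfl : e (Sum.inr a) = j := Fin.ext (by rw [he2, haj])
      simp only [hLL, Equiv.symm_apply_apply, Sum.elim_inr]
  -- the word and the determinants
  set l' : Fin (p + 1) → Fin (n' + 1 + 1) ⊕ Fin s := fun b =>
    Sum.elim (fun b => Sum.inl (l b)) (fun a => Sum.inr a) (E.symm b) with hl'
  set M : Matrix (Fin (n' + 1)) (Fin (n' + 1)) R :=
    Matrix.of fun k b => t1 * c1 k (l b) + t2 * c2 k (l b) with hM
  have hdet : ∀ r : Fin (n' + 1 + 1) → R, (Matrix.of fun (k b : Fin (p + 1)) =>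
      (Fin.cons (Sum.elim r (fun _ => 0)) cc : Fin (p + 1) → Fin (n' + 1 + 1) ⊕ Fin s → R) k (l' b)).det =
      (M.updateRow 0 (fun b => r (l b))).det := by
    intro r
    rw [det_blk E (Fin.cons (Sum.elim r (fun _ => 0)) cc) l' l]
    · congr 1
      ext k b
      rw [Matrix.of_apply]
      refine Fin.cases ?_ (fun k => ?_) k
      · rw [hE0, Fin.cons_zero, Matrix.updateRow_self]
        rfl
      · rw [hE1, Fin.cons_succ, Matrix.updateRow_ne (Fin.succ_ne_zero k)]
        simp [hcc, hc1e, hc2e, hM]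
    · intro b
      simp [hl']
    · intro a
      simp [hl']
    · intro k a
      refine Fin.cases ?_ (fun k => ?_) k
      · rw [hE0, Fin.cons_zero]
        rfl
      · rw [hE1, Fin.cons_succ]
        simp [hcc, hc1e, hc2e]
    · intro a b
      rw [hE2, Fin.cons_succ]
      simp [hcc, hcK]
  have hMd : M.det = t1 * (M.updateRow 0 (fun b => c1 0 (l b))).det +
      t2 * (M.updateRow 0 (fun b => c2 0 (l b))).det := by
    rw [← Matrix.det_updateRow_smul, ← Matrix.det_updateRow_smul, ← Matrix.det_updateRow_add]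
    congr 1
    conv_lhs => rw [← Matrix.updateRow_eq_self M 0]
    rfl
  refine ⟨?_, ?_⟩
  · intro i hi z hz
    have h1 := hU R t1 t2 (Fin (n' + 1 + 1) ⊕ Fin s) f1 f2 p S.toSys1 S.W' n' s hp' (Hh 0) hh K
      (fun i => c1e i.succ) (fun i => c2e i.succ) cK (fun k => hH k.succ) hKgr (fun k => hH2 k.succ) hKD
      (fun k => hHm k.succ) (hHhp 0) i hi z hz
    have h2 := hDET R S.W S.W' (Fin (n' + 1 + 1) ⊕ Fin s) S.D S.D' S.ι (Hh 0) (c1e 0) (c2e 0) p LL cc
      S.ι_D (hHh2 0) hLLD z (fun L => by rw [hsplit]; exact h1 L) l'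
    rw [hdet, hdet] at h2
    obtain ⟨y, hy, h3, h4⟩ := S.ι_ker i _ ((S.gr i).smul_mem _ hz) _ ((S.gr i).smul_mem _ hz) h2
    exact ⟨_, _, y, hy, hMd, h3, h4⟩
  · intro z hz
    have h1 : ∀ L : List (Fin (n' + 1 + 1) ⊕ Fin s), H 0 (hp p LL (L.foldr (fun j y => S.D j y) z)) = 0 := by
      intro L
      have h0 : ∀ L : List (Fin (n' + 1 + 1) ⊕ Fin s), L ≠ [] → L.foldr (fun j y => S.D j y) z = 0 := by
        intro L
        induction L with
        | nil => intro h; exact absurd rfl h
        | cons j L ih =>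
          intro _
          rw [List.foldr_cons]
          by_cases hL : L = []
          · rw [hL]
            exact S.D_zero j z hz
          · rw [ih hL, map_zero]
      by_cases hL : L = []
      · rw [hL]
        have h3 : hp p LL z ∈ S.gr (0 + p) := by
          refine hp_deg S.gr p LL ?_ 0 z hz
          intro k i y hy
          obtain ⟨x, rfl⟩ := e.surjective k
          simp only [hLL, Equiv.symm_apply_apply]
          rcases x with i | a
          · exact hH i.succ _ y hy
          · exact hKgr a _ y hy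
        exact S.gr_top _ (by omega) _ (hH 0 _ _ h3)
      · rw [h0 L hL, map_zero, map_zero]
    have h2 := hDET R S.W S.W (Fin (n' + 1 + 1) ⊕ Fin s) S.D (fun j => (S.D j).toAddMonoidHom)
      { toFun := fun x => t1 • x.1 + t2 • x.2
        map_zero' := by simp
        map_add' := fun x y => by simp only [Prod.fst_add, Prod.snd_add, smul_add]; abel }
      (H 0) (c1e 0) (c2e 0) p LL cc
      (fun j u v => by simp) (fun j y => by
        show S.D j (H 0 y) + H 0 (S.D j y) = t1 • (c1e 0 j • y) + t2 • (c2e 0 j • y)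
        rw [hH2 0 j y, add_smul, smul_smul, smul_smul]) hLLD z h1 l'
    rw [hdet, hdet] at h2
    rw [hMd, add_smul, mul_smul, mul_smul]
    exact h2

end Pool.Agent.Helper61.FB
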