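import Pool.Agent.Helper34.FB.Goals

/-!
# Project FB: packet ROW
-/

set_option autoImplicit false

namespace Pool.Agent.Helper61.FB

open Pool.Agent.Helper34.FB

universe u v

section

variable {R : Type u} [CommRing R] {W : Type v} [AddCommGroup W] [Module R W] {J : Type} (D : J → W →ₗ[R] W)

/-- words in the operators `D`, the last letter acts first -/
def dwd : (m : ℕ) → (Fin m → J) → W →ₗ[R] W
  | 0, _ => LinearMap.id
  | (m + 1), l => (D (l 0)) ∘ₗ (dwd m fun i => l i.succ)

theorem dwd_succ (m : ℕ) (l : Fin (m + 1) → J) (y : W) :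
    dwd D (m + 1) l y = D (l 0) (dwd D m (fun i => l i.succ) y) := rfl

/-- the Leibniz rule for a word and one letter `h` -/
theorem leib (h : W →+ W) (c : J → R) (H : ∀ j y, D j (h y) + h (D j y) = c j • y) (k : ℕ) :
    ∀ (l : Fin (k + 1) → J) (y : W), dwd D (k + 1) l (h y) = (-1 : R) ^ (k + 1) • h (dwd D (k + 1) l y) +
      ∑ a : Fin (k + 1), ((-1) ^ (k + (a : ℕ)) * c (l a)) • dwd D k (fun b => l (a.succAbove b)) y := by
  have H' : ∀ j y, D j (h y) = c j • y - h (D j y) := fun j y => by rw [← H j y]; abel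
  induction k with
  | zero =>
    intro l y
    rw [Fin.sum_univ_one]
    show D (l 0) (h y) = (-1 : R) ^ (0 + 1) • h (D (l 0) y) + ((-1) ^ (0 + ((0 : Fin 1) : ℕ)) * c (l 0)) • y
    rw [H']
    simp only [Fin.val_zero, add_zero, pow_zero, one_mul, zero_add, pow_one, neg_smul, one_smul]
    abel
  | succ k ih =>
    intro l y
    rw [dwd_succ, ih, map_add, map_smul, H', map_sum, Fin.sum_univ_succ (n := k + 1), ← dwd_succ]
    have e1 : ∀ a : Fin (k + 1), D (l 0) (((-1) ^ (k + (a : ℕ)) * c (l a.succ)) •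
        dwd D k (fun b => l (a.succAbove b).succ) y) =
        ((-1) ^ (k + 1 + ((a.succ : Fin (k + 1 + 1)) : ℕ)) * c (l a.succ)) •
          dwd D (k + 1) (fun b => l (a.succ.succAbove b)) y := by
      intro a
      rw [map_smul, dwd_succ]
      have e2 : (fun i : Fin k => l (a.succ.succAbove i.succ)) = fun b => l (a.succAbove b).succ := by
        funext b
        rw [Fin.succ_succAbove_succ]
      have e3 : a.succ.succAbove (0 : Fin (k + 1)) = 0 := Fin.succ_succAbove_zero a
      rw [e2, e3]
      congr 2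
      rw [Fin.val_succ, show k + 1 + ((a : ℕ) + 1) = k + a + 2 by ring, pow_add _ _ 2]
      simp
    rw [Finset.sum_congr rfl fun a _ => e1 a]
    have e4 : (fun b : Fin (k + 1) => l ((0 : Fin (k + 1 + 1)).succAbove b)) = fun b => l b.succ := by
      funext b
      rw [Fin.zero_succAbove]
    rw [e4, Fin.val_zero, add_zero, smul_sub, smul_smul, ← add_assoc, pow_succ (-1 : R) (k + 1)]
    congr 1
    rw [mul_neg, mul_one, neg_smul]
    abel

/-- the exchange of two holes -/
def exch (m : ℕ) : Fin (m + 2) × Fin (m + 1) ≃ Fin (m + 2) × Fin (m + 1) where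
  toFun x := (x.1.succAbove x.2, x.2.predAbove x.1)
  invFun x := (x.1.succAbove x.2, x.2.predAbove x.1)
  left_inv x := by
    show ((x.1.succAbove x.2).succAbove (x.2.predAbove x.1), (x.2.predAbove x.1).predAbove (x.1.succAbove x.2)) = x
    rw [Fin.succAbove_succAbove_predAbove, Fin.predAbove_predAbove_succAbove]
  right_inv x := by
    show ((x.1.succAbove x.2).succAbove (x.2.predAbove x.1), (x.2.predAbove x.1).predAbove (x.1.succAbove x.2)) = x
    rw [Fin.succAbove_succAbove_predAbove, Fin.predAbove_predAbove_succAbove]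

theorem hp_kill (m : ℕ) : ∀ (h : Fin m → W →+ W) (c : Fin m → J → R),
    (∀ i j y, D j (h i y) + h i (D j y) = c i j • y) → ∀ η : W, (∀ j j', D j (D j' η) = 0) →
    ∀ l : Fin (m + 2) → J, dwd D (m + 2) l (hp m h η) = 0 := by
  induction m with
  | zero =>
    intro h c H η hη l
    exact hη _ _
  | succ m ih =>
    intro h c H η hη l
    show dwd D (m + 2 + 1) l (h 0 (hp m (fun i => h i.succ) η)) = 0
    have IH := ih (fun i => h i.succ) (fun i => c i.succ) (fun i => H i.succ) η hη
    rw [leib D (h 0) (c 0) (H 0), dwd_succ, IH, map_zero, map_zero, smul_zero, zero_add]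
    apply Finset.sum_eq_zero
    intro a _
    rw [IH, smul_zero]

theorem hp_row (m : ℕ) : ∃ ε : ℕ, ∀ (h : Fin m → W →+ W) (c : Fin m → J → R),
    (∀ i j y, D j (h i y) + h i (D j y) = c i j • y) → ∀ η : W, (∀ j j', D j (D j' η) = 0) →
    ∀ l : Fin (m + 1) → J, dwd D (m + 1) l (hp m h η) = (-1 : R) ^ ε • ∑ b : Fin (m + 1),
      ((-1) ^ (b : ℕ) * (Matrix.of fun (i : Fin m) (b' : Fin m) => c i (l (b.succAbove b'))).det) •
        D (l b) η := by
  induction m with
  | zero =>
    refine ⟨0, ?_⟩
    intro h c H η hη l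
    rw [Fin.sum_univ_one, Matrix.det_fin_zero]
    show D (l 0) η = _
    simp
  | succ m ih =>
    obtain ⟨ε, ih⟩ := ih
    refine ⟨ε + m, ?_⟩
    intro h c H η hη l
    have IH := ih (fun i => h i.succ) (fun i => c i.succ) (fun i => H i.succ) η hη
    have K := hp_kill D m (fun i => h i.succ) (fun i => c i.succ) (fun i => H i.succ) η hη
    show dwd D (m + 1 + 1) l (h 0 (hp m (fun i => h i.succ) η)) = _
    rw [leib D (h 0) (c 0) (H 0), K, map_zero, smul_zero, zero_add]
    simp only [IH]
    have e1 : ∀ b : Fin (m + 1 + 1),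
        ((-1 : R) ^ (b : ℕ) * (Matrix.of fun (i : Fin (m + 1)) (b' : Fin (m + 1)) =>
          c i (l (b.succAbove b'))).det) • D (l b) η =
        ∑ a : Fin (m + 1), ((-1 : R) ^ ((b : ℕ) + (a : ℕ)) * (c 0 (l (b.succAbove a)) *
          (Matrix.of fun (i : Fin m) (b' : Fin m) => c i.succ (l (b.succAbove (a.succAbove b')))).det)) •
          D (l b) η := by
      intro b
      rw [Matrix.det_succ_row_zero, Finset.mul_sum, Finset.sum_smul]
      apply Finset.sum_congr rfl
      intro a _
      congr 1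
      rw [pow_add, mul_assoc, mul_assoc]
      rfl
    rw [Finset.sum_congr rfl fun b _ => e1 b]
    have e2 : ∀ b : Fin (m + 1 + 1),
        ((-1 : R) ^ (m + 1 + (b : ℕ)) * c 0 (l b)) • (-1 : R) ^ ε • ∑ a : Fin (m + 1),
          ((-1) ^ (a : ℕ) * (Matrix.of fun (i : Fin m) (b' : Fin m) =>
            c i.succ (l (b.succAbove (a.succAbove b')))).det) • D (l (b.succAbove a)) η =
        ∑ a : Fin (m + 1), ((-1 : R) ^ (ε + m + 1 + ((b : ℕ) + (a : ℕ))) * (c 0 (l b) *
          (Matrix.of fun (i : Fin m) (b' : Fin m) =>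
            c i.succ (l (b.succAbove (a.succAbove b')))).det)) • D (l (b.succAbove a)) η := by
      intro b
      rw [smul_smul, Finset.smul_sum]
      apply Finset.sum_congr rfl
      intro a _
      rw [smul_smul]
      congr 1
      rw [pow_add _ (ε + m + 1), pow_add _ (b : ℕ), pow_add _ (m + 1), show ε + m + 1 = ε + (m + 1) by ring,
        pow_add _ ε]
      ring
    rw [Finset.sum_congr rfl fun b _ => e2 b, Finset.smul_sum]
    simp only [Finset.smul_sum]
    rw [← Fintype.sum_prod_type' (f := fun (b : Fin (m + 1 + 1)) (a : Fin (m + 1)) =>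
        ((-1 : R) ^ (ε + m + 1 + ((b : ℕ) + (a : ℕ))) * (c 0 (l b) *
          (Matrix.of fun (i : Fin m) (b' : Fin m) =>
            c i.succ (l (b.succAbove (a.succAbove b')))).det)) • D (l (b.succAbove a)) η),
      ← Fintype.sum_prod_type' (f := fun (b : Fin (m + 1 + 1)) (a : Fin (m + 1)) =>
        (-1 : R) ^ (ε + m) • ((-1 : R) ^ ((b : ℕ) + (a : ℕ)) * (c 0 (l (b.succAbove a)) *
          (Matrix.of fun (i : Fin m) (b' : Fin m) => c i.succ (l (b.succAbove (a.succAbove b')))).det)) •
          D (l b) η)]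
    refine Fintype.sum_equiv (exch m) _ _ ?_
    rintro ⟨b, a⟩
    show ((-1 : R) ^ (ε + m + 1 + ((b : ℕ) + (a : ℕ))) * (c 0 (l b) *
          (Matrix.of fun (i : Fin m) (b' : Fin m) =>
            c i.succ (l (b.succAbove (a.succAbove b')))).det)) • D (l (b.succAbove a)) η =
        (-1 : R) ^ (ε + m) • ((-1 : R) ^ (((b.succAbove a : Fin (m + 2)) : ℕ) +
          ((a.predAbove b : Fin (m + 1)) : ℕ)) * (c 0 (l ((b.succAbove a).succAbove (a.predAbove b))) *
          (Matrix.of fun (i : Fin m) (b' : Fin m) =>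
            c i.succ (l ((b.succAbove a).succAbove ((a.predAbove b).succAbove b')))).det)) •
          D (l (b.succAbove a)) η
    rw [Fin.succAbove_succAbove_predAbove, Fin.neg_one_pow_succAbove_add_predAbove, smul_smul]
    have e3 : (Matrix.of fun (i : Fin m) (b' : Fin m) =>
            c i.succ (l ((b.succAbove a).succAbove ((a.predAbove b).succAbove b')))) =
        Matrix.of fun (i : Fin m) (b' : Fin m) => c i.succ (l (b.succAbove (a.succAbove b'))) := by
      ext i b'
      rw [Matrix.of_apply, Matrix.of_apply, Fin.succAbove_succAbove_succAbove_predAbove]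
    rw [e3]
    congr 1
    rw [pow_add _ (ε + m + 1), pow_succ _ (ε + m)]
    ring

end

theorem gROW : G_ROW.{u, v} := by
  intro R _ W _ _ J D n h c H η hη h0 l
  obtain ⟨ε, hε⟩ := hp_row (R := R) (W := W) D n
  have h1 := hε h c H η hη l
  rw [h0, map_zero] at h1
  have h2 := congrArg (fun z => (-1 : R) ^ ε • z) h1.symm
  simp only [smul_zero] at h2
  rw [smul_smul, ← pow_add, ← two_mul, pow_mul, neg_one_sq, one_pow, one_smul] at h2
  exact h2

end Pool.Agent.Helper61.FB
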